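import Pool.Agent.R839.SemiB

/-!
# Density of automorphic closures of finitely generated subsemigroups (Question Q1)

For every rank `r ≥ 2` there is a finitely generated subsemigroup `M` of the free group `F_r` of
density `0` whose automorphic closure contains every non-trivial element of `F_r`, so has
density `1`.
-/

namespace Pool.Agent.Results.MP_b831a3_al.ThinSemigroupFullOrbit

open FreeGroup Pool.Agent.R839.Semi Filter

variable {r : ℕ}

/-- The number of elements of `S` of word length at most `n`. -/
noncomputable def ballCount (S : Set (FreeGroup (Fin r))) (n : ℕ) : ℕ :=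
  {w : FreeGroup (Fin r) | w ∈ S ∧ w.toWord.length ≤ n}.ncard

/-- The proportion of the ball of radius `n` that lies in `S`. -/
noncomputable def prob (S : Set (FreeGroup (Fin r))) (n : ℕ) : ℝ :=
  (ballCount S n : ℝ) / (ballCount (Set.univ : Set (FreeGroup (Fin r))) n : ℝ)

/-- The automorphic closure of a subset. -/
def autClosure (S : Set (FreeGroup (Fin r))) : Set (FreeGroup (Fin r)) :=
  {w | ∃ (φ : FreeGroup (Fin r) ≃* FreeGroup (Fin r)) (m : FreeGroup (Fin r)), m ∈ S ∧ φ m = w}

section Counting

/-- The ball. -/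
def BB (r n : ℕ) : Set (FreeGroup (Fin r)) := {w | w.toWord.length ≤ n}

theorem BB_finite (r n : ℕ) : (BB r n).Finite :=
  (List.finite_length_le (Fin r × Bool) n).preimage toWord_injective.injOn

theorem ballCount_univ (r n : ℕ) :
    ballCount (Set.univ : Set (FreeGroup (Fin r))) n = (BB r n).ncard := by
  unfold ballCount BB
  congr 1
  ext w
  simp

theorem BB_large (c0 : Fin r) (n : ℕ) : n + 1 ≤ (BB r n).ncard := by
  have h : ((fun i : ℕ => (FreeGroup.of c0) ^ i) '' (Set.Iic n)) ⊆ BB r n := by
    rintro _ ⟨i, hi, rfl⟩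
    show (FreeGroup.toWord ((FreeGroup.of c0) ^ i)).length ≤ n
    rw [toWord_of_pow, List.length_replicate]
    exact hi
  have h2 := Set.ncard_le_ncard h (BB_finite r n)
  rw [Set.ncard_image_of_injOn] at h2
  · have h3 : (Set.Iic n).ncard = n + 1 := by
      rw [← Nat.card_coe_set_eq]
      simp
    rw [h3] at h2
    exact h2
  · intro i _ j _ hij
    have := congrArg (fun g => (FreeGroup.toWord g).length) hij
    simpa [toWord_of_pow] using this

/-- The number of lists of length at most eight. -/
noncomputable def KK (r : ℕ) : ℕ := {l : List (Fin r × Bool) | l.length ≤ 8}.ncard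

theorem BB_growth (r n : ℕ) : (BB r (n + 8)).ncard ≤ (BB r n).ncard * KK r := by
  unfold KK
  rw [← Set.ncard_prod]
  have hfin : ((BB r n) ×ˢ {l : List (Fin r × Bool) | l.length ≤ 8}).Finite :=
    (BB_finite r n).prod (List.finite_length_le _ _)
  refine Set.ncard_le_ncard_of_injOn
    (fun w => (FreeGroup.mk (w.toWord.take n), w.toWord.drop n)) ?_ ?_ hfin
  · intro w hw
    have hw' : w.toWord.length ≤ n + 8 := hw
    have hred : FreeGroup.IsReduced (w.toWord.take n) := by
      have h := isReduced_toWord (x := w)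
      unfold FreeGroup.IsReduced at h ⊢
      exact h.take n
    refine ⟨?_, ?_⟩
    · show (FreeGroup.toWord (FreeGroup.mk (w.toWord.take n))).length ≤ n
      rw [toWord_mk, hred.reduce_eq]
      exact List.length_take_le n _
    · show (w.toWord.drop n).length ≤ 8
      rw [List.length_drop]
      omega
  · intro w _ w' _ h
    have h' := Prod.mk.inj h
    obtain ⟨h1, h2⟩ := h'
    have hred : ∀ v : FreeGroup (Fin r), FreeGroup.IsReduced (v.toWord.take n) := by
      intro v
      have h := isReduced_toWord (x := v)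
      unfold FreeGroup.IsReduced at h ⊢
      exact h.take n
    have h3 := congrArg FreeGroup.toWord h1
    rw [toWord_mk, toWord_mk, (hred w).reduce_eq, (hred w').reduce_eq] at h3
    apply toWord_injective
    rw [← List.take_append_drop n w.toWord, ← List.take_append_drop n w'.toWord, h3, h2]

/-- The sign of the last letter. -/
def lb (u : List (Fin r × Bool)) : Bool :=
  match u.getLast? with
  | some y => y.2
  | none => true

/-- The sign of the first letter. -/
def hb (v : List (Fin r × Bool)) : Bool :=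
  match v.head? with
  | some y => y.2
  | none => true

/-- Insertion of a sixth power. -/
def ins (c0 c1 : Fin r) (u v : List (Fin r × Bool)) : List (Fin r × Bool) :=
  u ++ (c1, lb u) :: (List.replicate 6 (c0, true) ++ (c1, hb v) :: v)

theorem ins_reduced {c0 c1 : Fin r} (hc : c0 ≠ c1) {u v : List (Fin r × Bool)}
    (hu : FreeGroup.IsReduced u) (hv : FreeGroup.IsReduced v) :
    FreeGroup.IsReduced (ins c0 c1 u v) := by
  unfold FreeGroup.IsReduced at hu hv ⊢
  unfold ins
  have h1 : List.IsChain (fun a b : Fin r × Bool => a.1 = b.1 → a.2 = b.2) ((c1, hb v) :: v) := by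
    rw [List.isChain_cons]
    refine ⟨?_, hv⟩
    intro y hy _
    unfold hb
    have hy' : v.head? = some y := hy
    rw [hy']
  have h2 : List.IsChain (fun a b : Fin r × Bool => a.1 = b.1 → a.2 = b.2)
      (List.replicate 6 (c0, true) ++ (c1, hb v) :: v) := by
    rw [List.isChain_append]
    refine ⟨List.isChain_replicate_of_rel _ (fun _ => rfl), h1, ?_⟩
    intro x hx y hy hxy
    have hx' : x = (c0, true) := List.eq_of_mem_replicate (List.mem_of_getLast? hx)
    simp at hy
    subst hx'
    rw [← hy] at hxy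
    exact absurd hxy hc
  rw [List.isChain_append]
  refine ⟨hu, ?_, ?_⟩
  · rw [List.isChain_cons]
    refine ⟨?_, h2⟩
    intro y hy hxy
    have hy' : y = (c0, true) := by
      simp [List.replicate_succ] at hy
      exact hy.symm
    subst hy'
    exact absurd hxy.symm hc
  · intro x hx y hy _
    simp at hy
    subst hy
    unfold lb
    have hx' : u.getLast? = some x := hx
    rw [hx']

theorem ins_length_aux {c0 c1 : Fin r} (hc : c0 ≠ c1) {u u' R v : List (Fin r × Bool)}
    {b1 b2 b1' : Bool}
    (h : u ++ (c1, b1) :: (List.replicate 6 (c0, true) ++ (c1, b2) :: v) = u' ++ (c1, b1') :: R)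
    (hu' : Av c0 u') : u'.length ≤ u.length := by
  rcases List.append_eq_append_iff.1 h with ⟨as, h1, h2⟩ | ⟨as, h1, h2⟩
  · cases as with
    | nil => rw [h1]; simp
    | cons y as =>
      exfalso
      rw [List.cons_append, List.cons.injEq] at h2
      obtain ⟨rfl, h3⟩ := h2
      rcases List.append_eq_append_iff.1 h3 with ⟨bs, h4, h5⟩ | ⟨bs, h4, h5⟩
      · apply hu'
        rw [h1, h4]
        exact ⟨u ++ [(c1, b1)], bs, by simp⟩
      · cases bs with
        | nil =>
          apply hu'
          rw [List.append_nil] at h4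
          rw [h1, ← h4]
          exact ⟨u ++ [(c1, b1)], [], by simp⟩
        | cons y bs =>
          rw [List.cons_append, List.cons.injEq] at h5
          have hm : y ∈ List.replicate 6 (c0, true) := by rw [h4]; simp
          have hy := List.eq_of_mem_replicate hm
          have := h5.1
          rw [hy] at this
          exact hc (congrArg Prod.fst this).symm
  · rw [h1]; simp

theorem ins_inj {c0 c1 : Fin r} (hc : c0 ≠ c1) {u u' v v' : List (Fin r × Bool)}
    (hu : Av c0 u) (hu' : Av c0 u') (h : ins c0 c1 u v = ins c0 c1 u' v') : u = u' ∧ v = v' := by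
  unfold ins at h
  have h1 := ins_length_aux hc h hu'
  have h2 := ins_length_aux hc h.symm hu
  have h3 : u.length = u'.length := le_antisymm h2 h1
  obtain ⟨h4, h5⟩ := List.append_inj h h3
  rw [List.cons.injEq] at h5
  have h6 := List.append_cancel_left h5.2
  rw [List.cons.injEq] at h6
  exact ⟨h4, h6.2⟩

/-- The elements of the ball that avoid the sixth power. -/
def AA (c0 : Fin r) (n : ℕ) : Set (FreeGroup (Fin r)) := {w | Av c0 w.toWord ∧ w.toWord.length ≤ n}

theorem AA_sub (c0 : Fin r) (n : ℕ) : AA c0 n ⊆ BB r n := fun _ h => h.2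

theorem AA_bound {c0 c1 : Fin r} (hc : c0 ≠ c1) (n m : ℕ) :
    (AA c0 n \ BB r m).ncard * (m + 1) ≤ (BB r (n + 8)).ncard := by
  have hI : (Set.Iic m : Set ℕ).ncard = m + 1 := by
    rw [← Nat.card_coe_set_eq]
    simp
  rw [← hI, ← Set.ncard_prod]
  have hlen : ∀ w ∈ AA c0 n \ BB r m, m < w.toWord.length := by
    intro w hw
    have := hw.2
    by_contra hcon
    exact this (not_lt.1 hcon)
  refine Set.ncard_le_ncard_of_injOn (fun p : FreeGroup (Fin r) × ℕ =>
    FreeGroup.mk (ins c0 c1 (p.1.toWord.take p.2) (p.1.toWord.drop p.2))) ?_ ?_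
    (BB_finite r (n + 8))
  · rintro ⟨w, i⟩ ⟨hw, hi⟩
    show (FreeGroup.toWord (FreeGroup.mk _)).length ≤ n + 8
    have h1 := isReduced_toWord (x := w)
    have h2 : FreeGroup.IsReduced (w.toWord.take i) := by
      unfold FreeGroup.IsReduced at h1 ⊢
      exact h1.take i
    have h3 : FreeGroup.IsReduced (w.toWord.drop i) := by
      unfold FreeGroup.IsReduced at h1 ⊢
      exact h1.drop i
    rw [toWord_mk, (ins_reduced hc h2 h3).reduce_eq]
    unfold ins
    have h4 : w.toWord.length ≤ n := hw.1.2
    have h5 : (w.toWord.take i).length + (w.toWord.drop i).length = w.toWord.length := by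
      rw [← List.length_append, List.take_append_drop]
    simp only [List.length_append, List.length_cons, List.length_replicate]
    show (w.toWord.take i).length + (6 + ((w.toWord.drop i).length + 1) + 1) ≤ n + 8
    omega
  · rintro ⟨w, i⟩ ⟨hw, hi⟩ ⟨w', i'⟩ ⟨hw', hi'⟩ h
    have hr : ∀ (v : FreeGroup (Fin r)) (j : ℕ),
        FreeGroup.IsReduced (v.toWord.take j) ∧ FreeGroup.IsReduced (v.toWord.drop j) := by
      intro v j
      have h1 := isReduced_toWord (x := v)
      unfold FreeGroup.IsReduced at h1 ⊢
      exact ⟨h1.take j, h1.drop j⟩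
    have h1 := congrArg FreeGroup.toWord h
    simp only [toWord_mk] at h1
    rw [(ins_reduced hc (hr w i).1 (hr w i).2).reduce_eq,
      (ins_reduced hc (hr w' i').1 (hr w' i').2).reduce_eq] at h1
    have hav : ∀ (v : FreeGroup (Fin r)) (j : ℕ), Av c0 v.toWord → Av c0 (v.toWord.take j) := by
      intro v j hv h
      exact hv (h.trans (List.take_prefix j _).isInfix)
    obtain ⟨h2, h3⟩ := ins_inj hc (hav w i hw.1.1) (hav w' i' hw'.1.1) h1
    have hl := hlen w hw
    have hl' := hlen w' hw'
    have hi2 : i ≤ m := hi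
    have hi2' : i' ≤ m := hi'
    have h4 : i = i' := by
      have := congrArg List.length h2
      rw [List.length_take, List.length_take] at this
      omega
    subst h4
    have h5 : w = w' := by
      apply toWord_injective
      rw [← List.take_append_drop i w.toWord, ← List.take_append_drop i w'.toWord, h2, h3]
    rw [h5]

theorem AA_tendsto {c0 c1 : Fin r} (hc : c0 ≠ c1) :
    Tendsto (fun n => ((AA c0 n).ncard : ℝ) / ((BB r n).ncard : ℝ)) atTop (nhds 0) := by
  rw [Metric.tendsto_atTop]
  intro ε hε
  obtain ⟨m, hm⟩ : ∃ m : ℕ, (KK r : ℝ) / (m + 1) < ε / 2 := by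
    obtain ⟨m, hm⟩ := exists_nat_gt ((KK r : ℝ) / (ε / 2))
    refine ⟨m, ?_⟩
    rw [div_lt_iff₀ (by positivity)] at hm ⊢
    nlinarith
  obtain ⟨N, hN⟩ : ∃ N : ℕ, ((BB r m).ncard : ℝ) / (N + 1) < ε / 2 := by
    obtain ⟨N, hN⟩ := exists_nat_gt (((BB r m).ncard : ℝ) / (ε / 2))
    refine ⟨N, ?_⟩
    rw [div_lt_iff₀ (by positivity)] at hN ⊢
    nlinarith
  refine ⟨N, ?_⟩
  intro n hn
  have hBpos : (0 : ℝ) < ((BB r n).ncard : ℝ) := by
    have := BB_large c0 n
    exact_mod_cast (by omega : 0 < (BB r n).ncard)
  have h1 : (AA c0 n).ncard ≤ (AA c0 n \ BB r m).ncard + (BB r m).ncard := by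
    have hsub : AA c0 n ⊆ (AA c0 n \ BB r m) ∪ BB r m := by
      intro w hw
      by_cases h : w ∈ BB r m
      · right; exact h
      · left; exact ⟨hw, h⟩
    have hfin : ((AA c0 n \ BB r m) ∪ BB r m).Finite :=
      (((BB_finite r n).subset (AA_sub c0 n)).subset Set.diff_subset).union (BB_finite r m)
    exact (Set.ncard_le_ncard hsub hfin).trans (Set.ncard_union_le _ _)
  have h2 := (AA_bound hc n m).trans (BB_growth r n)
  have h2' : ((AA c0 n \ BB r m).ncard : ℝ) * (m + 1) ≤ ((BB r n).ncard : ℝ) * (KK r : ℝ) := by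
    exact_mod_cast h2
  have h1' : ((AA c0 n).ncard : ℝ) ≤ ((AA c0 n \ BB r m).ncard : ℝ) + ((BB r m).ncard : ℝ) := by
    exact_mod_cast h1
  have h3 : ((AA c0 n \ BB r m).ncard : ℝ) / ((BB r n).ncard : ℝ) ≤ (KK r : ℝ) / (m + 1) := by
    rw [div_le_div_iff₀ hBpos (by positivity)]
    linarith
  have h4 : ((BB r m).ncard : ℝ) / ((BB r n).ncard : ℝ) ≤ ((BB r m).ncard : ℝ) / (N + 1) := by
    apply div_le_div_of_nonneg_left (by positivity) (by positivity)
    have := BB_large c0 n
    exact_mod_cast (by omega : N + 1 ≤ (BB r n).ncard)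
  have h5 : ((AA c0 n).ncard : ℝ) / ((BB r n).ncard : ℝ) ≤
      ((AA c0 n \ BB r m).ncard : ℝ) / ((BB r n).ncard : ℝ) +
        ((BB r m).ncard : ℝ) / ((BB r n).ncard : ℝ) := by
    rw [← add_div]
    exact div_le_div_of_nonneg_right h1' hBpos.le
  rw [Real.dist_eq, sub_zero, abs_of_nonneg (by positivity)]
  linarith

end Counting

/-- **Question Q1** has a positive answer for every rank `r ≥ 2`: there is a finitely generated
subsemigroup `M` of the free group `F_r` whose density is `0` and whose automorphic closure has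
density `1`; in fact the automorphic closure contains every non-trivial element. -/
theorem result (r : ℕ) (hr : 2 ≤ r) :
    ∃ M : Subsemigroup (FreeGroup (Fin r)),
      (∃ T : Finset (FreeGroup (Fin r)), Subsemigroup.closure (T : Set (FreeGroup (Fin r))) = M) ∧
      Tendsto (prob (M : Set (FreeGroup (Fin r)))) atTop (nhds 0) ∧
      Tendsto (prob (autClosure (M : Set (FreeGroup (Fin r))))) atTop (nhds 1) ∧
      ∀ w : FreeGroup (Fin r), w ≠ 1 → w ∈ autClosure (M : Set (FreeGroup (Fin r))) := by
  classical
  let c0 : Fin r := ⟨0, by omega⟩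
  let c1 : Fin r := ⟨1, by omega⟩
  have hc : c0 ≠ c1 := by simp [c0, c1]
  have hcov : ∀ w : FreeGroup (Fin r), w ≠ 1 →
      w ∈ autClosure (MM c0 c1 : Set (FreeGroup (Fin r))) := by
    intro w hw
    obtain ⟨ψ, m, hm, h⟩ := covered (c0 := c0) (c1 := c1) w hw
    exact ⟨ψ, m, hm, h⟩
  refine ⟨MM c0 c1, ⟨Finset.univ.image (gen c0 c1), ?_⟩, ?_, ?_, hcov⟩
  · rw [Finset.coe_image, Finset.coe_univ, Set.image_univ]
    rfl
  · refine squeeze_zero (fun n => ?_) (fun n => ?_) (AA_tendsto hc)
    · unfold prob
      positivity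
    · unfold prob
      rw [ballCount_univ]
      apply div_le_div_of_nonneg_right _ (by positivity)
      have hsub : {w : FreeGroup (Fin r) | w ∈ (MM c0 c1 : Set (FreeGroup (Fin r))) ∧
          w.toWord.length ≤ n} ⊆ AA c0 n := fun w hw => ⟨MM_avoid hc hw.1, hw.2⟩
      have := Set.ncard_le_ncard hsub ((BB_finite r n).subset (AA_sub c0 n))
      exact_mod_cast this
  · have hlow : ∀ n : ℕ, 1 - 1 / ((n : ℝ) + 1) ≤
        prob (autClosure (MM c0 c1 : Set (FreeGroup (Fin r)))) n := by
      intro n
      unfold prob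
      rw [ballCount_univ]
      have hB := BB_large c0 n
      have hBpos : (0 : ℝ) < ((BB r n).ncard : ℝ) := by
        exact_mod_cast (by omega : 0 < (BB r n).ncard)
      have hsub : BB r n ⊆ {w : FreeGroup (Fin r) |
          w ∈ autClosure (MM c0 c1 : Set (FreeGroup (Fin r))) ∧ w.toWord.length ≤ n} ∪ {1} := by
        intro w hw
        by_cases h : w = 1
        · right; exact h
        · left; exact ⟨hcov w h, hw⟩
      have hfin : ({w : FreeGroup (Fin r) |
          w ∈ autClosure (MM c0 c1 : Set (FreeGroup (Fin r))) ∧ w.toWord.length ≤ n} ∪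
          {1}).Finite :=
        ((BB_finite r n).subset (fun w hw => hw.2)).union (Set.finite_singleton _)
      have h1 : (BB r n).ncard ≤
          ballCount (autClosure (MM c0 c1 : Set (FreeGroup (Fin r)))) n + 1 := by
        have := (Set.ncard_le_ncard hsub hfin).trans (Set.ncard_union_le _ _)
        rwa [Set.ncard_singleton] at this
      have h1' : ((BB r n).ncard : ℝ) ≤
          (ballCount (autClosure (MM c0 c1 : Set (FreeGroup (Fin r)))) n : ℝ) + 1 := by
        exact_mod_cast h1
      have h2 : (1 : ℝ) / ((BB r n).ncard : ℝ) ≤ 1 / ((n : ℝ) + 1) := by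
        apply one_div_le_one_div_of_le (by positivity)
        exact_mod_cast hB
      have h3 : 1 - 1 / ((BB r n).ncard : ℝ) ≤
          (ballCount (autClosure (MM c0 c1 : Set (FreeGroup (Fin r)))) n : ℝ) /
            ((BB r n).ncard : ℝ) := by
        rw [le_div_iff₀ hBpos, sub_mul, one_div, inv_mul_cancel₀ hBpos.ne']
        linarith
      linarith
    have hup : ∀ n : ℕ, prob (autClosure (MM c0 c1 : Set (FreeGroup (Fin r)))) n ≤ 1 := by
      intro n
      unfold prob
      rw [ballCount_univ]
      apply div_le_one_of_le₀ _ (by positivity)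
      have hsub : {w : FreeGroup (Fin r) |
          w ∈ autClosure (MM c0 c1 : Set (FreeGroup (Fin r))) ∧ w.toWord.length ≤ n} ⊆ BB r n :=
        fun w hw => hw.2
      have := Set.ncard_le_ncard hsub (BB_finite r n)
      exact_mod_cast this
    have hlim : Tendsto (fun n : ℕ => 1 - 1 / ((n : ℝ) + 1)) atTop (nhds 1) := by
      have := (tendsto_one_div_add_atTop_nhds_zero_nat (𝕜 := ℝ)).const_sub 1
      simpa using this
    exact tendsto_of_tendsto_of_tendsto_of_le_of_le hlim tendsto_const_nhds hlow hup

end Pool.Agent.Results.MP_b831a3_al.ThinSemigroupFullOrbit
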